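import Pool.Agent.Q51.SZ.Stm
import Pool.Agent.Q150.SX.Plc
import Pool.Agent.Q68.SX.Res
import Pool.Agent.Q162.SX.DST

/-!
# Project SZ (helper51): approximation by elements of `L` and by rational numbers
-/

set_option autoImplicit false

namespace Pool.Agent.Q166.SZ

open Polynomial NumberField IsDedekindDomain Finset
open Pool.Agent.Y157.PS (Dec Ine IsU)
open Pool.Agent.Q51.EL (Abv Setup)
open Pool.Agent.Q51.SZ
open Pool.Agent.Q161.SX (Frb)

/-- a Frobenius element at every valuation ring above `l` -/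
theorem exists_frb {A : Type} [Field A] [Algebra ℚ A] [IsAlgClosure ℚ A] {l : ℕ} (hl : l.Prime)
    (V : ValuationSubring A) (hV : (l : A) ∈ V.nonunits) : ∃ φ : A ≃ₐ[ℚ] A, Frb V l φ := by
  obtain ⟨V0, φ0, h0, h1, h2⟩ := Pool.Agent.Q150.SX.plc A l hl
  obtain ⟨τ, hτ⟩ := Pool.Agent.Q150.SX.cnj A l hl V V0 hV h0
  -- `τ z ∈ V0 ↔ z ∈ V`
  have hτn : ∀ z, τ z ∈ V0.nonunits → z ∈ V.nonunits := by
    intro z hz
    rw [Pool.Agent.Y157.PS.nonunits_iff] at hz ⊢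
    refine ⟨(hτ z).1 hz.1, ?_⟩
    rcases hz.2 with h | h
    · left
      exact (map_eq_zero_iff τ τ.injective).1 h
    · right
      intro h3
      apply h
      rw [← map_inv₀]
      exact (hτ _).2 h3
  refine ⟨τ⁻¹ * φ0 * τ, ?_, ?_⟩
  · intro z
    have e1 : (τ⁻¹ * φ0 * τ) z = τ.symm (φ0 (τ z)) := rfl
    rw [e1, ← hτ, AlgEquiv.apply_symm_apply, h1, hτ]
  · intro z hz
    have e1 : (τ⁻¹ * φ0 * τ) z = τ.symm (φ0 (τ z)) := rfl
    rw [e1]
    apply hτn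
    rw [map_sub, map_pow, AlgEquiv.apply_symm_apply]
    exact h2 _ ((hτ z).2 hz)

theorem dec_pow {A : Type} [Field A] [Algebra ℚ A] {V : ValuationSubring A} {φ : A ≃ₐ[ℚ] A}
    (h : Dec V φ) (m : ℕ) : Dec V (φ ^ m) := by
  induction m with
  | zero => intro z; rfl
  | succ m ih =>
    rw [pow_succ]
    exact ih.mul h

theorem setupQ : Setup (X : ℤ[X]) ℚ 0 where
  irr := by
    rw [Polynomial.map_X]
    exact Polynomial.irreducible_X
  root := by simp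
  deg := by simp

/-- the last step: from an approximation of `z / l ^ k` to one of `z` -/
theorem last {A : Type} [Field A] {V : ValuationSubring A} {z y : A} {l : ℕ} {k : ℤ}
    (hl0 : (l : A) ≠ 0) (hu : IsU V (z / (l : A) ^ k))
    (hy : y - z / (l : A) ^ k ∈ V.nonunits) : (z - y * (l : A) ^ k) / z ∈ V.nonunits := by
  have hk : (l : A) ^ k ≠ 0 := zpow_ne_zero _ hl0
  have hz : z ≠ 0 := by
    intro h
    apply hu.1
    rw [h, zero_div]
  have e : (z - y * (l : A) ^ k) / z =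
      (z / (l : A) ^ k)⁻¹ * -(y - z / (l : A) ^ k) := by
    field_simp
    ring
  rw [e]
  exact Pool.Agent.Y157.PS.non_mul hu.inv.2.1 (Pool.Agent.Y157.PS.non_neg hy)

theorem apx (hI : S_INV) : S_APX := by
  intro f L _ _ θ hS
  obtain ⟨B1, hB1, hR1⟩ := Pool.Agent.Q68.SX.res Pool.Agent.Q162.SX.dst f L θ hS
  obtain ⟨B2, hB2, hR2⟩ := Pool.Agent.Q68.SX.res Pool.Agent.Q162.SX.dst X ℚ 0 setupQ
  refine ⟨B1 * B2, mul_ne_zero hB1 hB2, ?_⟩
  intro q B hBB hq A _ _ _ hG J hJ l V hA z hz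
  have hc : CharZero A := algebraRat.charZero A
  have hl0 : (l : A) ≠ 0 := Nat.cast_ne_zero.2 hA.pr.ne_zero
  have hlB1 : ¬ l ∣ B1 := fun h => hA.nd ((h.trans (Dvd.intro _ rfl)).trans hBB)
  have hlB2 : ¬ l ∣ B2 := fun h => hA.nd ((h.trans (Dvd.intro_left _ rfl)).trans hBB)
  obtain ⟨i1, i2, -, -⟩ := hI f q B A hG hq l V hA
  obtain ⟨φ, hφ⟩ := exists_frb hA.pr V hA.ab
  have hDφ : Dec V φ := hφ.1
  constructor
  · intro i hi
    have hz2 : ∀ σ : A ≃ₐ[ℚ] A, Ine V σ → σ z = z :=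
      fun σ hσ => hi σ hσ.1 ((i1 σ hσ).1 i)
    obtain ⟨k, hk⟩ := i2 z hz hz2
    obtain ⟨g, hg⟩ := hR1 A l hA.pr hlB1 V φ hA.ab hφ (J i) (z / (l : A) ^ k) hk.2.1 (by
      intro m hm
      rw [hJ i] at hm
      have h1 : (φ ^ m) z = z := hi (φ ^ m) (dec_pow hDφ m) (Subtype.ext hm)
      rw [map_div₀, map_zpow₀, map_natCast, h1])
    refine ⟨(g : L) * (l : L) ^ k, ?_⟩
    have := last hl0 hk hg
    rw [map_mul, map_zpow₀, map_natCast]
    exact this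
  · intro hi
    have hz2 : ∀ σ : A ≃ₐ[ℚ] A, Ine V σ → σ z = z := fun σ hσ => hi σ hσ.1
    obtain ⟨k, hk⟩ := i2 z hz hz2
    obtain ⟨g, hg⟩ := hR2 A l hA.pr hlB2 V φ hA.ab hφ (Algebra.ofId ℚ A)
      (z / (l : A) ^ k) hk.2.1 (by
      intro m _
      have h1 : (φ ^ m) z = z := hi (φ ^ m) (dec_pow hDφ m)
      rw [map_div₀, map_zpow₀, map_natCast, h1])
    refine ⟨(g : ℚ) * (l : ℚ) ^ k, ?_⟩
    have := last hl0 hk hg
    rw [map_mul, map_zpow₀, map_natCast]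
    exact this

end Pool.Agent.Q166.SZ
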