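import Pool.Agent.Y157.PS.Tools

/-!
# Project SZ of helper51, job LCR: canonical roots at a branch point, abstract form
-/

set_option autoImplicit false

namespace Pool.Agent.Q166.SZ

open Pool.Agent.Y157.PS Finset

section

variable {κ N : Type} [Field κ] [Field N] (ι : κ →+* N) (W : ValuationSubring N)

/-- constants are units -/
theorem isU_const (hι : ∀ c, ι c ∈ W) {c : κ} (hc : c ≠ 0) : IsU W (ι c) := by
  refine ⟨(_root_.map_ne_zero ι).2 hc, hι c, ?_⟩
  rw [← map_inv₀]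
  exact hι _

theorem const_non (hι : ∀ c, ι c ∈ W) {c : κ} (hc : ι c ∈ W.nonunits) : c = 0 := by
  by_contra h
  exact (isU_const ι W hι h).not_nonunit hc

theorem isU_of_sub_one {z : N} (h : z - 1 ∈ W.nonunits) : IsU W z := by
  have h1 : z ∈ W := by
    have := add_mem (non_mem h) (one_mem W)
    rwa [sub_add_cancel] at this
  refine isU_of_not_nonunit h1 fun h2 => ?_
  have h3 := non_sub h2 h
  rw [sub_sub_cancel] at h3
  exact isU_one.not_nonunit h3

/-- two elements `≡ 1` with the same `ℓ`-th power are equal -/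
theorem root_uniq (hι : ∀ c, ι c ∈ W) {ℓ : ℕ} (hℓ : (ℓ : κ) ≠ 0) {h h' : N}
    (h1 : h - 1 ∈ W.nonunits) (h2 : h' - 1 ∈ W.nonunits) (he : h ^ ℓ = h' ^ ℓ) : h = h' := by
  have hp : 0 < ℓ := by
    rcases Nat.eq_zero_or_pos ℓ with h0 | h0
    · rw [h0, Nat.cast_zero] at hℓ
      exact absurd rfl hℓ
    · exact h0
  have hU : IsU W h' := isU_of_sub_one W h2
  have hℓ' : IsU W (ℓ : N) := by
    have := isU_const ι W hι hℓ
    rwa [map_natCast] at this
  have h3 : h / h' = 1 := by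
    refine root_eq hℓ' hp (b := 1) ?_ (one_pow _) ?_
    · rw [div_pow, he, div_self (pow_ne_zero _ hU.1)]
    · have h4 : h / h' - 1 = h'⁻¹ * ((h - 1) - (h' - 1)) := by
        have := hU.1
        field_simp
        ring
      rw [h4]
      exact non_mul hU.inv.2.1 (non_sub h1 h2)
  exact (div_eq_one_iff_eq hU.1).1 h3

theorem pow_sub_non {a b : N} (ha : a ∈ W) (hb : b ∈ W) (h : a - b ∈ W.nonunits) (n : ℕ) :
    a ^ n - b ^ n ∈ W.nonunits := by
  rw [← (Commute.all a b).geom_sum₂_mul n]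
  exact non_mul (sum_mem fun i _ => mul_mem (pow_mem ha _) (pow_mem hb _)) h

/-- existence of the normalised root -/
theorem root_ex (hι : ∀ c, ι c ∈ W)
    (hres : ∀ z ∈ W, ∃ c : κ, z - ι c ∈ W.nonunits) {ℓ : ℕ} (hp : 0 < ℓ) {ρ h₁ : N}
    (hρ : ρ - 1 ∈ W.nonunits) (h1 : h₁ ^ ℓ = ρ) :
    ∃ h : N, h ^ ℓ = ρ ∧ h - 1 ∈ W.nonunits := by
  have hU : IsU W h₁ := isU_of_pow hp (by rw [h1]; exact isU_of_sub_one W hρ)
  obtain ⟨c, hc⟩ := hres h₁ hU.2.1
  have h2 := pow_sub_non W hU.2.1 (hι c) hc ℓ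
  rw [h1] at h2
  have h3 : ι (1 - c ^ ℓ) ∈ W.nonunits := by
    have h4 := non_sub h2 hρ
    have h5 : ρ - ι c ^ ℓ - (ρ - 1) = ι (1 - c ^ ℓ) := by
      rw [map_sub, map_one, map_pow]; ring
    rwa [h5] at h4
  have hcl : c ^ ℓ = 1 := (sub_eq_zero.1 (const_non ι W hι h3)).symm
  have hc0 : c ≠ 0 := by
    rintro rfl
    rw [zero_pow hp.ne'] at hcl
    exact zero_ne_one hcl
  have hic : ι c ≠ 0 := (_root_.map_ne_zero ι).2 hc0
  refine ⟨h₁ * ι c⁻¹, ?_, ?_⟩
  · rw [mul_pow, h1, ← map_pow, inv_pow, hcl, inv_one, map_one, mul_one]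
  · have h4 : h₁ * ι c⁻¹ - 1 = ι c⁻¹ * (h₁ - ι c) := by
      rw [map_inv₀]
      field_simp
    rw [h4]
    exact non_mul (hι _) hc

variable [DecidableEq κ] (R : Finset κ) (DD lc : κ) (r : κ)

/-- the values `Wf` -/
def Wc (i : κ) : κ := if i = r then DD / (lc * ∏ k ∈ R.erase r, (r - k)) else r - i

/-- the canonical roots at a branch point -/
theorem lcr_core (hι : ∀ c, ι c ∈ W) (hres : ∀ z ∈ W, ∃ c : κ, z - ι c ∈ W.nonunits)
    {ℓ : ℕ} (hℓ : (ℓ : κ) ≠ 0) (x y : N) (hr : r ∈ R) (hxr : x - ι r ∈ W.nonunits)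
    (hxi : ∀ c, x - ι c ≠ 0)
    (hD : DD ≠ 0) (hlc : lc ≠ 0) (heq : ι DD * y ^ ℓ = ι lc * ∏ e ∈ R, (x - ι e))
    (hdvd : ℓ ∣ R.card) (hroot : ∀ c : κ, ∃ b : κ, b ^ ℓ = c)
    (hrts : ∀ e ∈ R, ∀ e' ∈ R, ∃ h : N, h ^ ℓ = (x - ι e) / (x - ι e')) :
    ∃ g : κ → κ → N, (∀ i ∈ R, ∀ j ∈ R,
      (x - ι i) / (x - ι j) = ι (Wc R DD lc r i / Wc R DD lc r j) * g i j ^ ℓ) ∧
      ∀ (τ : N →+* N) (σ : κ ≃+* κ), (∀ c, τ (ι c) = ι (σ c)) → τ x = x → τ y = y →
        (∀ z, τ z ∈ W ↔ z ∈ W) → σ r = r → (∀ e, σ e ∈ R ↔ e ∈ R) →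
        ∀ i ∈ R, ∀ j ∈ R, τ (g i j) = g (σ i) (σ j) := by
  have hp : 0 < ℓ := by
    rcases Nat.eq_zero_or_pos ℓ with h0 | h0
    · rw [h0, Nat.cast_zero] at hℓ
      exact absurd rfl hℓ
    · exact h0
  set ρ : κ → N := fun i => (x - ι i) / ι (r - i) with hρdef
  have hρ1 : ∀ i, i ≠ r → ρ i - 1 ∈ W.nonunits := by
    intro i hi
    have h0 : r - i ≠ 0 := sub_ne_zero.2 (Ne.symm hi)
    have h1 : ι (r - i) ≠ 0 := (_root_.map_ne_zero ι).2 h0
    have h2 : ρ i - 1 = ι (r - i)⁻¹ * (x - ι r) := by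
      rw [map_inv₀]
      simp only [hρdef]
      field_simp
      rw [map_sub]
      ring
    rw [h2]
    exact non_mul (hι _) hxr
  have hρ0 : ∀ i, i ≠ r → ρ i ≠ 0 := fun i hi => (isU_of_sub_one W (hρ1 i hi)).1
  have hρU : ∀ i, i ≠ r → IsU W (ρ i) := fun i hi => isU_of_sub_one W (hρ1 i hi)
  have hρρ : ∀ i j, i ≠ r → j ≠ r → ρ i / ρ j - 1 ∈ W.nonunits := by
    intro i j hi hj
    have h0 := hρ0 j hj
    have h1 : ρ i / ρ j - 1 = (ρ j)⁻¹ * ((ρ i - 1) - (ρ j - 1)) := by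
      field_simp
      ring
    rw [h1]
    exact non_mul (hρU j hj).inv.2.1 (non_sub (hρ1 i hi) (hρ1 j hj))
  -- the normalised roots
  have hex : ∀ i j, ∃ h : N, (i ∈ R ∧ i ≠ r) → (j ∈ R ∧ j ≠ r) →
      h ^ ℓ = ρ i / ρ j ∧ h - 1 ∈ W.nonunits := by
    intro i j
    by_cases hi : i ∈ R ∧ i ≠ r
    · by_cases hj : j ∈ R ∧ j ≠ r
      · obtain ⟨h0, hh0⟩ := hrts i hi.1 j hj.1
        obtain ⟨c0, hc0⟩ := hroot ((r - j) / (r - i))
        have hi0 : r - i ≠ 0 := sub_ne_zero.2 (Ne.symm hi.2)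
        have hj0 : r - j ≠ 0 := sub_ne_zero.2 (Ne.symm hj.2)
        have hi1 : ι (r - i) ≠ 0 := (_root_.map_ne_zero ι).2 hi0
        have hj1 : ι (r - j) ≠ 0 := (_root_.map_ne_zero ι).2 hj0
        have h1 : (h0 * ι c0) ^ ℓ = ρ i / ρ j := by
          rw [mul_pow, hh0, ← map_pow, hc0, map_div₀]
          simp only [hρdef]
          have := hxi j
          field_simp
        obtain ⟨h, hh1, hh2⟩ := root_ex ι W hι hres hp (hρρ i j hi.2 hj.2) h1
        exact ⟨h, fun _ _ => ⟨hh1, hh2⟩⟩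
      · exact ⟨1, fun _ hj' => absurd hj' hj⟩
    · exact ⟨1, fun hi' => absurd hi' hi⟩
  choose hh hhs using hex
  obtain ⟨n', hn'⟩ := hdvd
  set G : κ → N := fun i => ρ i ^ n' / y * ∏ k ∈ (R.erase r).erase i, hh k i with hG
  have hy0 : y ≠ 0 := by
    rintro rfl
    rw [zero_pow hp.ne', mul_zero] at heq
    have h1 : ι lc * ∏ e ∈ R, (x - ι e) ≠ 0 :=
      mul_ne_zero ((_root_.map_ne_zero ι).2 hlc) (Finset.prod_ne_zero_iff.2 fun e _ => hxi e)
    exact h1 heq.symm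
  have hprod : ι DD * y ^ ℓ = ι lc * ((x - ι r) * ∏ k ∈ R.erase r, (ρ k * ι (r - k))) := by
    rw [heq, ← Finset.mul_prod_erase R _ hr]
    congr 2
    refine Finset.prod_congr rfl fun k hk => ?_
    have h0 : ι (r - k) ≠ 0 := (_root_.map_ne_zero ι).2
      (sub_ne_zero.2 (Ne.symm (Finset.ne_of_mem_erase hk)))
    simp only [hρdef]
    field_simp
  have hGpow : ∀ i ∈ R, i ≠ r → G i ^ ℓ = (x - ι i) / (x - ι r) *
      ι (Wc R DD lc r r / Wc R DD lc r i) := by
    intro i hi hir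
    have him : i ∈ R.erase r := Finset.mem_erase.2 ⟨hir, hi⟩
    have hcard : ((R.erase r).erase i).card + 2 = ℓ * n' := by
      rw [Finset.card_erase_of_mem him, Finset.card_erase_of_mem hr, ← hn']
      have h1 : 0 < (R.erase r).card := Finset.card_pos.2 ⟨i, him⟩
      rw [Finset.card_erase_of_mem hr] at h1
      omega
    have h1 : ∏ k ∈ (R.erase r).erase i, hh k i ^ ℓ =
        (∏ k ∈ (R.erase r).erase i, ρ k) / ρ i ^ ((R.erase r).erase i).card := by
      rw [← Finset.prod_const, ← Finset.prod_div_distrib]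
      refine Finset.prod_congr rfl fun k hk => ?_
      have hk1 := Finset.mem_erase.1 hk
      have hk2 := Finset.mem_erase.1 hk1.2
      exact (hhs k i ⟨hk2.2, hk2.1⟩ ⟨hi, hir⟩).1
    have h2 : G i ^ ℓ = ρ i ^ (ℓ * n') / y ^ ℓ * ((∏ k ∈ (R.erase r).erase i, ρ k) /
        ρ i ^ ((R.erase r).erase i).card) := by
      simp only [hG]
      rw [mul_pow, div_pow, ← Finset.prod_pow, h1, ← pow_mul, mul_comm n' ℓ]
    rw [h2, ← hcard]
    have hP : ∏ k ∈ R.erase r, (ρ k * ι (r - k)) =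
        (ρ i * ∏ k ∈ (R.erase r).erase i, ρ k) * ι (∏ k ∈ R.erase r, (r - k)) := by
      rw [Finset.prod_mul_distrib, map_prod, Finset.mul_prod_erase (R.erase r) ρ him]
    rw [hP] at hprod
    have hWr : Wc R DD lc r r = DD / (lc * ∏ k ∈ R.erase r, (r - k)) := if_pos rfl
    have hWi : Wc R DD lc r i = r - i := if_neg hir
    rw [hWr, hWi]
    set Q := ∏ k ∈ (R.erase r).erase i, ρ k with hQ
    have hp0 : ∏ k ∈ R.erase r, (r - k) ≠ 0 := Finset.prod_ne_zero_iff.2 fun k hk =>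
      sub_ne_zero.2 (Ne.symm (Finset.ne_of_mem_erase hk))
    set pp := ∏ k ∈ R.erase r, (r - k) with hpp
    have e1 : ι pp ≠ 0 := (_root_.map_ne_zero ι).2 hp0
    have e2 : ι lc ≠ 0 := (_root_.map_ne_zero ι).2 hlc
    have e3 : ι DD ≠ 0 := (_root_.map_ne_zero ι).2 hD
    have e4 : ι (r - i) ≠ 0 := (_root_.map_ne_zero ι).2 (sub_ne_zero.2 (Ne.symm hir))
    have e5 := hρ0 i hir
    have e6 : x - ι r ≠ 0 := hxi r
    have e7 : x - ι i = ρ i * ι (r - i) := by
      simp only [hρdef]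
      field_simp
    have e8 : y ^ ℓ = ι lc * ((x - ι r) * (ρ i * Q * ι pp)) / ι DD := by
      rw [← hprod]
      field_simp
    have e9 : Q ≠ 0 := Finset.prod_ne_zero_iff.2 fun k hk =>
      hρ0 k (Finset.ne_of_mem_erase (Finset.mem_of_mem_erase hk))
    rw [e7, e8, map_div₀, map_div₀, map_mul, pow_add]
    field_simp
  classical
  refine ⟨fun i j => if i = r then (if j = r then 1 else (G j)⁻¹) else
    (if j = r then G i else hh i j), ?_, ?_⟩
  · intro i hi j hj
    have hWr0 : Wc R DD lc r r ≠ 0 := by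
      have : Wc R DD lc r r = DD / (lc * ∏ k ∈ R.erase r, (r - k)) := if_pos rfl
      rw [this]
      exact div_ne_zero hD (mul_ne_zero hlc (Finset.prod_ne_zero_iff.2 fun k hk =>
        sub_ne_zero.2 (Ne.symm (Finset.ne_of_mem_erase hk))))
    have hWi0 : ∀ i, i ≠ r → Wc R DD lc r i ≠ 0 := by
      intro i hi
      have : Wc R DD lc r i = r - i := if_neg hi
      rw [this]
      exact sub_ne_zero.2 (Ne.symm hi)
    by_cases hir : i = r
    · subst hir
      by_cases hjr : j = i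
      · subst hjr
        simp only [if_true, one_pow, mul_one]
        rw [div_self hWr0, map_one, div_self (hxi _)]
      · simp only [if_true, if_neg hjr]
        rw [inv_pow, hGpow j hj hjr]
        have h1 := hxi i
        have h2 := hxi j
        have h3 : ι (Wc R DD lc i i) ≠ 0 := (_root_.map_ne_zero ι).2 hWr0
        have h4 : ι (Wc R DD lc i j) ≠ 0 := (_root_.map_ne_zero ι).2 (hWi0 j hjr)
        rw [map_div₀]
        field_simp
    · by_cases hjr : j = r
      · subst hjr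
        simp only [if_true, if_neg hir]
        rw [hGpow i hi hir]
        have h3 : ι (Wc R DD lc j j) ≠ 0 := (_root_.map_ne_zero ι).2 hWr0
        have h4 : ι (Wc R DD lc j i) ≠ 0 := (_root_.map_ne_zero ι).2 (hWi0 i hir)
        rw [map_div₀, map_div₀]
        field_simp
      · simp only [if_neg hir, if_neg hjr]
        rw [(hhs i j ⟨hi, hir⟩ ⟨hj, hjr⟩).1]
        have hWi : Wc R DD lc r i = r - i := if_neg hir
        have hWj : Wc R DD lc r j = r - j := if_neg hjr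
        have h1 : ι (r - i) ≠ 0 := (_root_.map_ne_zero ι).2 (sub_ne_zero.2 (Ne.symm hir))
        have h2 : ι (r - j) ≠ 0 := (_root_.map_ne_zero ι).2 (sub_ne_zero.2 (Ne.symm hjr))
        have h3 := hxi j
        rw [hWi, hWj, map_div₀]
        simp only [hρdef]
        field_simp
  · intro τ σ hτι hτx hτy hτW hσr hσR
    have hσne : ∀ i, i ≠ r → σ i ≠ r := fun i hi h => hi (σ.injective (h.trans hσr.symm))
    have hτρ : ∀ i, τ (ρ i) = ρ (σ i) := by
      intro i
      simp only [hρdef]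
      rw [map_div₀, map_sub, hτx, hτι, hτι, map_sub, hσr]
    have hτnon : ∀ z, z ∈ W.nonunits → τ z ∈ W.nonunits := by
      intro z hz
      rw [nonunits_iff] at hz ⊢
      refine ⟨(hτW z).2 hz.1, ?_⟩
      rcases hz.2 with h | h
      · left; rw [h, map_zero]
      · right
        rw [← map_inv₀, hτW]
        exact h
    have hτh : ∀ i ∈ R, i ≠ r → ∀ j ∈ R, j ≠ r → τ (hh i j) = hh (σ i) (σ j) := by
      intro i hi hir j hj hjr
      have h1 := hhs i j ⟨hi, hir⟩ ⟨hj, hjr⟩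
      have h2 := hhs (σ i) (σ j) ⟨(hσR i).2 hi, hσne i hir⟩ ⟨(hσR j).2 hj, hσne j hjr⟩
      refine root_uniq ι W hι hℓ ?_ h2.2 ?_
      · have h3 := hτnon _ h1.2
        rwa [map_sub, map_one] at h3
      · rw [← map_pow, h1.1, map_div₀, hτρ, hτρ, h2.1]
    have hτG : ∀ i ∈ R, i ≠ r → τ (G i) = G (σ i) := by
      intro i hi hir
      simp only [hG]
      rw [map_mul, map_div₀, map_pow, hτρ, hτy, map_prod]
      congr 1
      refine Finset.prod_equiv σ.toEquiv ?_ ?_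
      · intro k
        simp only [Finset.mem_erase]
        have h1 : (σ.toEquiv k) = σ k := rfl
        rw [h1, hσR]
        constructor
        · rintro ⟨a, b, c⟩
          exact ⟨fun h => a (σ.injective h), hσne k b, c⟩
        · rintro ⟨a, b, c⟩
          exact ⟨fun h => a (by rw [h]), fun h => b (by rw [h, hσr]), c⟩
      · intro k hk
        have hk1 := Finset.mem_erase.1 hk
        have hk2 := Finset.mem_erase.1 hk1.2
        exact hτh k hk2.2 hk2.1 i hi hir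
    intro i hi j hj
    by_cases hir : i = r
    · rw [hir, hσr]
      by_cases hjr : j = r
      · rw [hjr, hσr]
        simp only [if_true, map_one]
      · simp only [if_true, if_neg hjr, if_neg (hσne j hjr)]
        rw [map_inv₀, hτG j hj hjr]
    · by_cases hjr : j = r
      · rw [hjr, hσr]
        simp only [if_true, if_neg hir, if_neg (hσne i hir)]
        exact hτG i hi hir
      · simp only [if_neg hir, if_neg hjr, if_neg (hσne i hir), if_neg (hσne j hjr)]
        exact hτh i hi hir j hj hjr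

end

end Pool.Agent.Q166.SZ
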