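import Pool.Agent.Q51.SZ.Stm2
import Pool.Agent.Y157.PS.Num
import Pool.Agent.Q166.SZ.LcrCore

/-!
# Project SZ of helper51, job LCR: canonical roots at a branch point
-/

set_option autoImplicit false

namespace Pool.Agent.Q166.SZ

open Polynomial Finset FF
open Pool.Agent.Y157.PS
open Pool.Agent.Q51.SZ

theorem wf_eq {κ : Type} [Field κ] [inst : DecidableEq κ] (f₀ : ℤ[X]) (D : ℤ) (r i : κ)
    (hr : r ∈ rts f₀ κ) (hi : i ∈ rts f₀ κ) :
    Wf f₀ D ⟨r, hr⟩ ⟨i, hi⟩ = Wc (rts f₀ κ) (D : κ) (f₀.leadingCoeff : κ) r i := by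
  have hinst : inst = fun a b => Classical.propDecidable (a = b) := Subsingleton.elim _ _
  subst hinst
  classical
  unfold Wf Wc
  by_cases h : i = r
  · rw [if_pos (Subtype.ext h), if_pos h]
    congr 2
    refine Finset.prod_bij (fun k _ => k.1) ?_ ?_ ?_ ?_
    · intro k hk
      have h1 := Finset.mem_erase.1 hk
      exact Finset.mem_erase.2 ⟨fun e => h1.1 (Subtype.ext e), k.2⟩
    · intro k _ k' _ h1
      exact Subtype.ext h1
    · intro k hk
      have h1 := Finset.mem_erase.1 hk
      exact ⟨⟨k, h1.2⟩, Finset.mem_erase.2 ⟨fun e => h1.1 (congrArg Subtype.val e),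
        Finset.mem_univ _⟩, rfl⟩
    · intro k _
      rfl
  · rw [if_neg (fun e => h (congrArg Subtype.val e)), if_neg h]

theorem lcr : S_LCR := by
  classical
  intro A k F Ω _ _ _ _ _ _ _ _ _ _ _ _ _ _ _ _ ℓ _ V hVA hVm hℓ f hlc hs hdvd h3 f₀ hff hdeg
    ϖ hϖ D m hm t ht hD x y hx hxy hF S hcont hcompat
  have hℓp : ℓ.Prime := Fact.out
  have hac : IsAlgClosure k (algebraicClosure k Ω) := inferInstance
  have hkb : IsAlgClosed (algebraicClosure k Ω) := hac.1
  have hch : CharZero (algebraicClosure k Ω) :=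
    charZero_of_injective_algebraMap (algebraMap k (algebraicClosure k Ω)).injective
  have haev : ∀ (L : Type) [Field L] [Algebra k L] (z : L),
      aeval z (f.map (algebraMap A k)) = aeval z f₀ := by
    intro L _ _ z
    rw [hff, aeval_def, eval₂_map, aeval_def]
    congr 1
    exact RingHom.ext_int _ _
  have hxy' : algebraMap k F (D : k) * y ^ ℓ = aeval x (f.map (algebraMap A k)) := by
    rw [haev, map_intCast]
    exact hxy
  have hAk : Function.Injective (algebraMap A k) := IsFractionRing.injective A k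
  have hD0 : (D : k) ≠ 0 := by
    rw [hD]
    refine mul_ne_zero ?_ (zpow_ne_zero _ ?_)
    · rw [Ne, map_eq_zero_iff _ hAk]
      exact ht.ne_zero
    · rw [Ne, map_eq_zero_iff _ hAk]
      exact hϖ.ne_zero
  obtain ⟨W, ⟨h1, h2, ⟨r, hr0, hrfix, z', hz', hz'e⟩, h4⟩, -⟩ := geo a_loc a_cov a_ndisc V hVA hVm
    hℓ f hlc hs hdvd h3 ϖ hϖ (D : k) m hm t ht hD x y hx hxy' hF S hcont hcompat
  -- constants
  let ι : algebraicClosure k Ω →+* geomPro ℓ k F Ω :=
    { toFun := fun c => ⟨(c : Ω), const_geomPro ℓ k c⟩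
      map_one' := rfl
      map_mul' := fun _ _ => rfl
      map_zero' := rfl
      map_add' := fun _ _ => rfl }
  have hιv : ∀ c, ((ι c : geomPro ℓ k F Ω) : Ω) = (c : Ω) := fun c => rfl
  have hι : ∀ c, ι c ∈ W := fun c => const_mem_N _ W h1 c (ι c) rfl
  have hres : ∀ z ∈ W, ∃ c : algebraicClosure k Ω, z - ι c ∈ W.nonunits := by
    intro z hz
    obtain ⟨c, w, hw, hwe⟩ := h2 z hz
    refine ⟨c, ?_⟩
    have h5 : z - ι c = w := Subtype.ext hwe.symm
    rw [h5]
    exact hw
  -- the polynomial over `κ`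
  let _ : Algebra A (algebraicClosure k Ω) :=
    ((algebraMap k (algebraicClosure k Ω)).comp (algebraMap A k)).toAlgebra
  have hst : IsScalarTower A k (algebraicClosure k Ω) :=
    IsScalarTower.of_algebraMap_eq (fun _ => rfl)
  obtain ⟨hnd, -⟩ := Pool.Agent.W623.SecC.roots_distinct V hVA hVm f hlc hs
  have hP : f.map (algebraMap A (algebraicClosure k Ω)) =
      f₀.map (Int.castRingHom (algebraicClosure k Ω)) := by
    rw [IsScalarTower.algebraMap_eq A k (algebraicClosure k Ω), ← Polynomial.map_map, hff,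
      Polynomial.map_map]
    congr 1
    exact RingHom.ext_int _ _
  rw [hP] at hnd
  have hlck : algebraMap A k f.leadingCoeff = (f₀.leadingCoeff : k) := by
    have h5 := congrArg (fun p => p.coeff f.natDegree) hff
    simp only [coeff_map, eq_intCast] at h5
    rw [← hdeg] at h5
    rw [hdeg] at h5
    exact h5.trans (by rw [← hdeg]; rfl)
  have hlck0 : (f₀.leadingCoeff : k) ≠ 0 := by
    rw [← hlck, Ne, map_eq_zero_iff _ hAk]
    exact hlc.ne_zero
  have hlcκ0 : (f₀.leadingCoeff : algebraicClosure k Ω) ≠ 0 := by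
    have h5 := (_root_.map_ne_zero (algebraMap k (algebraicClosure k Ω))).2 hlck0
    rwa [map_intCast] at h5
  have hDκ0 : (D : algebraicClosure k Ω) ≠ 0 := by
    have h5 := (_root_.map_ne_zero (algebraMap k (algebraicClosure k Ω))).2 hD0
    rwa [map_intCast] at h5
  set P := f₀.map (Int.castRingHom (algebraicClosure k Ω)) with hPdef
  have hlcP : P.leadingCoeff = (f₀.leadingCoeff : algebraicClosure k Ω) :=
    leadingCoeff_map_of_leadingCoeff_ne_zero _ hlcκ0
  have hP0 : P ≠ 0 := by
    intro h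
    apply hlcκ0
    rw [← hlcP, h, leadingCoeff_zero]
  have hPdeg : P.natDegree = f₀.natDegree := natDegree_map_of_leadingCoeff_ne_zero _ hlcκ0
  have hmem : ∀ e, e ∈ rts f₀ (algebraicClosure k Ω) ↔ aeval e f₀ = 0 := by
    intro e
    rw [mem_rts]
    have h5 : (f₀.map (Int.castRingHom (algebraicClosure k Ω))).IsRoot e ↔ aeval e f₀ = 0 := by
      rw [IsRoot.def, eval_map, aeval_def]
      have : Int.castRingHom (algebraicClosure k Ω) = algebraMap ℤ (algebraicClosure k Ω) :=
        RingHom.ext_int _ _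
      rw [this]
    rw [h5]
    exact and_iff_right hP0
  have hRdef : rts f₀ (algebraicClosure k Ω) = P.roots.toFinset := by
    unfold rts
    congr
    exact Subsingleton.elim _ _
  have hcard : (rts f₀ (algebraicClosure k Ω)).card = f.natDegree := by
    rw [hRdef, Multiset.toFinset_card_of_nodup hnd, ← hdeg, ← hPdeg]
    exact (IsAlgClosed.splits P).natDegree_eq_card_roots.symm
  have hsep : (f.map (algebraMap A k)).Separable := by
    have h5 : P.Separable := by
      rw [← nodup_aroots_iff_of_splits (K := algebraicClosure k Ω) hP0 ?_]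
      · rw [aroots_def, Algebra.algebraMap_self, Polynomial.map_id]
        exact hnd
      · rw [Algebra.algebraMap_self, Polynomial.map_id]
        exact IsAlgClosed.splits P
    have h6 : (f.map (algebraMap A k)).map (algebraMap k (algebraicClosure k Ω)) = P := by
      rw [Polynomial.map_map, ← IsScalarTower.algebraMap_eq A k (algebraicClosure k Ω), hP]
    rw [← h6] at h5
    exact (separable_map _).1 h5
  have hnatk : (f.map (algebraMap A k)).natDegree = f.natDegree :=
    natDegree_map_eq_of_injective hAk f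
  set xN : geomPro ℓ k F Ω := algebraMap F (geomPro ℓ k F Ω) x with hxN
  set yN : geomPro ℓ k F Ω := algebraMap F (geomPro ℓ k F Ω) y with hyN
  have hxNv : ((xN : geomPro ℓ k F Ω) : Ω) = algebraMap F Ω x := rfl
  have hrR : r ∈ rts f₀ (algebraicClosure k Ω) := by
    rw [hmem, ← haev]
    exact hr0
  have hxr : xN - ι r ∈ W.nonunits := by
    have h5 : xN - ι r = z' := Subtype.ext hz'e.symm
    rw [h5]
    exact hz'
  have hxi : ∀ c, xN - ι c ≠ 0 := by
    intro c hc
    have h5 : algebraMap F Ω x = (c : Ω) := congrArg Subtype.val (sub_eq_zero.1 hc)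
    have h6 : Transcendental k (algebraMap F Ω x) :=
      (transcendental_algebraMap_iff (R := k) (algebraMap F Ω).injective (a := x)).2 hx
    apply h6
    rw [h5]
    exact c.2.isAlgebraic
  have heq : ι (D : algebraicClosure k Ω) * yN ^ ℓ = ι (f₀.leadingCoeff : algebraicClosure k Ω) *
      ∏ e ∈ rts f₀ (algebraicClosure k Ω), (xN - ι e) := by
    have h5 : ι (D : algebraicClosure k Ω) * yN ^ ℓ = P.eval₂ ι xN := by
      rw [hPdef, eval₂_map]
      have h6 : ι (D : algebraicClosure k Ω) * yN ^ ℓ =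
          algebraMap F (geomPro ℓ k F Ω) ((D : F) * y ^ ℓ) := by
        rw [map_mul, map_pow, map_intCast, map_intCast]
      rw [h6, hxy, aeval_def, hom_eval₂]
      congr 1
      exact RingHom.ext_int _ _
    rw [h5]
    have h6 := (IsAlgClosed.splits P).eq_prod_roots
    have h7 : ∏ e ∈ rts f₀ (algebraicClosure k Ω), (xN - ι e) =
        (P.roots.map fun e => xN - ι e).prod := by
      rw [hRdef, Finset.prod, Multiset.toFinset_val, Multiset.dedup_eq_self.2 hnd]
    rw [h7, ← hlcP]
    conv_lhs => rw [h6]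
    rw [eval₂_mul, eval₂_C, ← coe_eval₂RingHom, map_multiset_prod, Multiset.map_map]
    congr 2
    refine Multiset.map_congr rfl fun a _ => ?_
    simp
  have hrts : ∀ e ∈ rts f₀ (algebraicClosure k Ω), ∀ e' ∈ rts f₀ (algebraicClosure k Ω),
      ∃ h : geomPro ℓ k F Ω, h ^ ℓ = (xN - ι e) / (xN - ι e') := by
    intro e he e' he'
    obtain ⟨h, hh⟩ := a_rts ℓ k F Ω (f.map (algebraMap A k)) hsep (by rw [hnatk]; exact hdvd)
      (by rw [hnatk]; exact h3) (D : k) hD0 x y hx hxy' hF e e'
      (by rw [haev]; exact (hmem e).1 he) (by rw [haev]; exact (hmem e').1 he')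
    exact ⟨h, Subtype.ext hh⟩
  obtain ⟨g, hg1, hg2⟩ := lcr_core ι W (rts f₀ (algebraicClosure k Ω)) (D : algebraicClosure k Ω)
    (f₀.leadingCoeff : algebraicClosure k Ω) r hι hres (ℓ := ℓ)
    (Nat.cast_ne_zero.2 hℓp.ne_zero) xN yN hrR hxr hxi hDκ0 hlcκ0 heq (by rw [hcard]; exact hdvd)
    (fun c => IsAlgClosed.exists_pow_nat_eq c hℓp.pos) hrts
  refine ⟨r, hrR, hrfix, g, fun i hi j hj => ⟨?_, fun σ hσ => ?_⟩⟩
  · have h5 := congrArg (fun z : geomPro ℓ k F Ω => (z : Ω)) (hg1 i hi j hj)
    have h6 : Cf f₀ D ⟨r, hrR⟩ ⟨i, hi⟩ ⟨j, hj⟩ =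
        Wc (rts f₀ (algebraicClosure k Ω)) (D : algebraicClosure k Ω)
          (f₀.leadingCoeff : algebraicClosure k Ω) r i /
        Wc (rts f₀ (algebraicClosure k Ω)) (D : algebraicClosure k Ω)
          (f₀.leadingCoeff : algebraicClosure k Ω) r j := by
      unfold Cf
      rw [wf_eq, wf_eq]
    rw [h6]
    exact h5
  · refine hg2 ((S σ : geomPro ℓ k F Ω ≃ₐ[F] geomPro ℓ k F Ω) : geomPro ℓ k F Ω →+* geomPro ℓ k F Ω)
      (σ : algebraicClosure k Ω ≃+* algebraicClosure k Ω) ?_ ?_ ?_ ?_ ?_ ?_ i hi j hj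
    · intro c
      exact Subtype.ext (hcompat σ c (ι c) rfl)
    · exact (S σ).commutes x
    · exact (S σ).commutes y
    · exact h4 σ hσ
    · exact hrfix σ hσ
    · intro e
      rw [hmem, hmem, ← haev, ← haev]
      have h5 : aeval (σ e) (f.map (algebraMap A k)) = σ (aeval e (f.map (algebraMap A k))) :=
        (aeval_algHom_apply (σ : algebraicClosure k Ω →ₐ[k] algebraicClosure k Ω) e _)
      have h6 : ((σ : algebraicClosure k Ω ≃+* algebraicClosure k Ω) e) = σ e := rfl
      rw [h6, h5, map_eq_zero_iff _ σ.injective]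

end Pool.Agent.Q166.SZ
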