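import Pool.Agent.Q51.SZ.Stm2
import Pool.Agent.Y157.PS.NumF

/-!
# Project SZ of helper51, job LOK: the local theorem over number fields
-/

set_option autoImplicit false

namespace Pool.Agent.Q166.SZ

open Polynomial Finset FF IsDedekindDomain NumberField
open Pool.Agent.Y157.PS (Dec Ine IsU geomPro num_data int_mem non_add non_mul non_mem
  isU_of_not_nonunit isU_one nonunits_iff)
open Pool.Agent.Q51.SZ

section

variable {κ : Type} [Field κ] (V : ValuationSubring κ)

/-- integers prime to `l` are units -/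
theorem int_isU {l : ℕ} (hl : l.Prime) (hlV : (l : κ) ∈ V.nonunits) {c : ℤ}
    (hc : ¬ (l : ℤ) ∣ c) : IsU V (c : κ) := by
  refine isU_of_not_nonunit (intCast_mem V c) fun hn => ?_
  have h1 : IsCoprime (l : ℤ) c := (Prime.coprime_iff_not_dvd (Nat.prime_iff_prime_int.1 hl)).2 hc
  obtain ⟨u, w, huw⟩ := h1
  have h2 : (1 : κ) = (u : κ) * (l : κ) + (w : κ) * (c : κ) := by
    have h3 := congrArg (fun z : ℤ => (z : κ)) huw
    push_cast at h3
    exact h3.symm
  have h4 : (1 : κ) ∈ V.nonunits := by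
    rw [h2]
    exact non_add (non_mul (intCast_mem V u) hlV) (non_mul (intCast_mem V w) hn)
  exact isU_one.not_nonunit h4

/-- the prime of `𝓞 K` given by `V` -/
theorem exists_place {K : Type} [Field K] [NumberField K] [Algebra K κ] {l : ℕ} (hl : l.Prime)
    (hlV : (l : κ) ∈ V.nonunits) :
    ∃ (v : HeightOneSpectrum (𝓞 K)) (φ : 𝓞 K →+* V),
      (∀ a : 𝓞 K, ((φ a : V) : κ) = algebraMap K κ (algebraMap (𝓞 K) K a)) ∧
      v.asIdeal = (IsLocalRing.maximalIdeal V).comap φ ∧
      ∀ a : 𝓞 K, a ∈ v.asIdeal ↔ algebraMap K κ (algebraMap (𝓞 K) K a) ∈ V.nonunits := by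
  have hO : ∀ a : 𝓞 K, ((algebraMap K κ).comp (algebraMap (𝓞 K) K)) a ∈ V.toSubring := by
    intro a
    have h1 : IsIntegral ℤ (algebraMap K κ (algebraMap (𝓞 K) K a)) := by
      have h2 : IsIntegral ℤ (algebraMap (𝓞 K) K a) := RingOfIntegers.isIntegral_coe a
      exact h2.map (algebraMap K κ).toIntAlgHom
    obtain ⟨p, hp, hpa⟩ := h1
    exact int_mem V _ p hp hpa
  let φ : 𝓞 K →+* V := ((algebraMap K κ).comp (algebraMap (𝓞 K) K)).codRestrict V.toSubring hO
  have hφ : ∀ a : 𝓞 K, ((φ a : V) : κ) = algebraMap K κ (algebraMap (𝓞 K) K a) := fun a => rfl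
  have hmem : ∀ a : 𝓞 K, a ∈ (IsLocalRing.maximalIdeal V).comap φ ↔
      algebraMap K κ (algebraMap (𝓞 K) K a) ∈ V.nonunits := by
    intro a
    rw [Ideal.mem_comap, ← hφ a, ValuationSubring.coe_mem_nonunits_iff]
  have hne : (IsLocalRing.maximalIdeal V).comap φ ≠ ⊥ := by
    intro h
    have h1 : ((l : 𝓞 K)) ∈ (IsLocalRing.maximalIdeal V).comap φ := by
      rw [hmem, map_natCast, map_natCast]
      exact hlV
    rw [h, Ideal.mem_bot] at h1
    exact hl.ne_zero (by exact_mod_cast h1)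
  exact ⟨⟨_, Ideal.comap_isPrime φ _, hne⟩, φ, hφ, rfl, hmem⟩

/-- the reduction of the polynomial is separable -/
theorem sep_mod {K : Type} [Field K] [NumberField K] [Algebra K κ] [CharZero κ] [IsAlgClosed κ]
    (f : ℤ[X]) (hlc : IsU V (f.leadingCoeff : κ)) (hint : ∀ i : Rt f κ, i.1 ∈ V)
    (hdist : ∀ i j : Rt f κ, i ≠ j → IsU V (i.1 - j.1)) (hcrd : (rts f κ).card = f.natDegree)
    (v : HeightOneSpectrum (𝓞 K)) (φ : 𝓞 K →+* V)
    (hv : v.asIdeal = (IsLocalRing.maximalIdeal V).comap φ) :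
    ((f.map (algebraMap ℤ (𝓞 K))).map (Ideal.Quotient.mk v.asIdeal)).Separable := by
  classical
  have hvm : v.asIdeal.IsMaximal := v.isMaximal
  let _ : Field (𝓞 K ⧸ v.asIdeal) := Ideal.Quotient.field _
  let θ : (𝓞 K ⧸ v.asIdeal) →+* IsLocalRing.ResidueField V :=
    Ideal.Quotient.lift v.asIdeal ((IsLocalRing.residue V).comp φ) (by
      intro a ha
      rw [hv, Ideal.mem_comap] at ha
      rw [RingHom.comp_apply]
      exact (IsLocalRing.residue_eq_zero_iff _).2 ha)
  rw [← separable_map θ]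
  have h1 : ((f.map (algebraMap ℤ (𝓞 K))).map (Ideal.Quotient.mk v.asIdeal)).map θ =
      (f.map (Int.castRingHom V)).map (IsLocalRing.residue V) := by
    rw [Polynomial.map_map, Polynomial.map_map, Polynomial.map_map]
    congr 1
    exact RingHom.ext_int _ _
  rw [h1]
  -- factorisation over `κ`
  set P := f.map (Int.castRingHom κ) with hP
  have hlcP : P.leadingCoeff = (f.leadingCoeff : κ) :=
    leadingCoeff_map_of_leadingCoeff_ne_zero _ hlc.1
  have hPdeg : P.natDegree = f.natDegree := natDegree_map_of_leadingCoeff_ne_zero _ hlc.1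
  have hnd : P.roots.Nodup := by
    have h2 : P.roots.toFinset.card = P.roots.card := by
      have h3 : (rts f κ) = P.roots.toFinset := by
        unfold rts
        congr
      rw [← h3, hcrd, ← hPdeg]
      exact (IsAlgClosed.splits P).natDegree_eq_card_roots
    exact Multiset.toFinset_card_eq_card_iff_nodup.1 h2
  have hfac : P = C (f.leadingCoeff : κ) * ∏ e ∈ rts f κ, (X - C e) := by
    have h3 : (rts f κ) = P.roots.toFinset := by
      unfold rts
      congr
    have h4 := (IsAlgClosed.splits P).eq_prod_roots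
    rw [hlcP] at h4
    have h5 : ∏ e ∈ rts f κ, (X - C e) = (P.roots.map fun e => X - C e).prod := by
      rw [h3, Finset.prod, Multiset.toFinset_val, Multiset.dedup_eq_self.2 hnd]
    rw [h5]
    exact h4
  have hfacV : f.map (Int.castRingHom V) = C ((f.leadingCoeff : ℤ) : V) *
      ∏ e : Rt f κ, (X - C (⟨e.1, hint e⟩ : V)) := by
    apply Polynomial.map_injective V.subtype Subtype.val_injective
    rw [Polynomial.map_map, Polynomial.map_mul, map_C, Polynomial.map_prod]
    have h6 : V.subtype.comp (Int.castRingHom V) = Int.castRingHom κ := RingHom.ext_int _ _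
    rw [h6, ← hP, hfac, map_intCast]
    congr 1
    rw [← Finset.prod_coe_sort]
    refine Finset.prod_congr rfl fun e _ => ?_
    rw [Polynomial.map_sub, map_X, map_C]
    rfl
  rw [hfacV, Polynomial.map_mul, map_C, Polynomial.map_prod]
  refine Separable.unit_mul ?_ ?_
  · rw [isUnit_C, isUnit_iff_ne_zero]
    intro h
    rw [IsLocalRing.residue_eq_zero_iff, ← ValuationSubring.coe_mem_nonunits_iff] at h
    refine hlc.not_nonunit ?_
    have h7 : (((f.leadingCoeff : ℤ) : V) : κ) = (f.leadingCoeff : κ) := by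
      exact map_intCast V.subtype _
    rwa [h7] at h
  · have h7 : ∀ e : Rt f κ, (X - C (⟨e.1, hint e⟩ : V)).map (IsLocalRing.residue V) =
        X - C (IsLocalRing.residue V ⟨e.1, hint e⟩) := by
      intro e
      rw [Polynomial.map_sub, map_X, map_C]
    simp only [h7]
    rw [separable_prod_X_sub_C_iff]
    intro i j hij
    by_contra hne
    have h8 : IsLocalRing.residue V (⟨i.1, hint i⟩ - ⟨j.1, hint j⟩) = 0 := by
      rw [map_sub, sub_eq_zero]
      exact hij
    rw [IsLocalRing.residue_eq_zero_iff, ← ValuationSubring.coe_mem_nonunits_iff] at h8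
    exact (hdist i j hne).not_nonunit h8

end

/-- the exponent of `b` at `v` -/
theorem exists_exponent {K : Type} [Field K] [NumberField K] (v : HeightOneSpectrum (𝓞 K))
    (b : 𝓞 K) (hb : b ≠ 0) : ∃ n : ℕ, b ∈ v.asIdeal ^ n ∧ b ∉ v.asIdeal ^ (n + 1) := by
  classical
  have h1 : ∃ n, b ∉ v.asIdeal ^ n := by
    by_contra hcon
    push Not at hcon
    have h2 : b ∈ (⨅ i : ℕ, v.asIdeal ^ i : Ideal (𝓞 K)) := by
      rw [Ideal.mem_iInf]
      exact hcon
    rw [Ideal.iInf_pow_eq_bot_of_isDomain _ v.isPrime.ne_top, Ideal.mem_bot] at h2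
    exact hb h2
  obtain ⟨n, hn⟩ : ∃ n, Nat.find h1 = n + 1 := by
    rcases Nat.eq_zero_or_pos (Nat.find h1) with h0 | h0
    · have h3 := Nat.find_spec h1
      rw [h0, pow_zero, Ideal.one_eq_top] at h3
      exact absurd trivial h3
    · exact ⟨Nat.find h1 - 1, by omega⟩
  refine ⟨n, ?_, ?_⟩
  · by_contra h
    have := Nat.find_min h1 (m := n) (by omega)
    exact this h
  · rw [← hn]
    exact Nat.find_spec h1

theorem lok (h1 : S_UNG) (h2 : S_LCR) : S_LOK := by
  classical
  intro f q B hq hdvd h3 K F Ω _ _ _ _ _ _ _ _ _ _ hGd D hD x y hx hxy hF S hcont hcompat l V hAt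
  have hqf : Fact q.Prime := ⟨hq⟩
  have hac : IsAlgClosure K (algebraicClosure K Ω) := inferInstance
  have hkb : IsAlgClosed (algebraicClosure K Ω) := hac.1
  have hch : CharZero (algebraicClosure K Ω) :=
    charZero_of_injective_algebraMap (algebraMap K (algebraicClosure K Ω)).injective
  have hl := hAt.pr
  have hlV := hAt.ab
  have hlc := hGd.lc l V hAt
  obtain ⟨v, φ, hφ, hvφ, hvm⟩ := exists_place (K := K) V hl hlV
  have hD0 : D ≠ 0 := hD.ne_zero
  have hD0' : (D : 𝓞 K) ≠ 0 := by exact_mod_cast hD0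
  obtain ⟨n, hn1, hn2⟩ := exists_exponent v (D : 𝓞 K) hD0'
  have hqv : (q : 𝓞 K) ∉ v.asIdeal := by
    rw [hvm, map_natCast, map_natCast]
    intro h
    have h4 : ¬ (l : ℤ) ∣ (q : ℤ) := by
      rw [Int.natCast_dvd_natCast, Nat.prime_dvd_prime_iff_eq hl hq]
      exact hGd.nq l hl hAt.nd
    have h5 := int_isU V hl hlV h4
    rw [Int.cast_natCast] at h5
    exact h5.not_nonunit h
  have hlcf0 : f.leadingCoeff ≠ 0 := by
    intro h
    have := hlc.1
    rw [h, Int.cast_zero] at this
    exact this rfl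
  have hlcO : algebraMap ℤ (𝓞 K) f.leadingCoeff ≠ 0 := by
    rw [eq_intCast]
    exact_mod_cast hlcf0
  have hlcg : (f.map (algebraMap ℤ (𝓞 K))).leadingCoeff = (f.leadingCoeff : 𝓞 K) := by
    rw [leadingCoeff_map_of_leadingCoeff_ne_zero _ hlcO, eq_intCast]
  have hlcv : (f.map (algebraMap ℤ (𝓞 K))).leadingCoeff ∉ v.asIdeal := by
    rw [hlcg, hvm, map_intCast, map_intCast]
    exact fun h => hlc.not_nonunit h
  have hsep := sep_mod V f hlc (hGd.int l V hAt) (hGd.dist l V hAt) hGd.crd v φ hvφ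
  obtain ⟨A, iA1, iA2, iA3, iA4, hfin, hfr, hqA, hVV, fA, hfA1, hfA2, hfA3, hfA4, ϖ, t, hϖ, ht,
    hb⟩ := num_data v q hqv (f.map (algebraMap ℤ (𝓞 K))) hlcv hsep (D : 𝓞 K) n hn1 hn2
  obtain ⟨hVA, hVm⟩ := hVV (algebraicClosure K Ω) V (fun a ha => (hvm a).1 ha)
  have hfA : fA.map (algebraMap A K) = f.map (Int.castRingHom K) := by
    rw [hfA1, Polynomial.map_map]
    congr 1
  have hdeg : f.natDegree = fA.natDegree := by
    rw [hfA2, natDegree_map_of_leadingCoeff_ne_zero _ hlcO]
  have hdvdA : q ∣ fA.natDegree := hdeg ▸ hdvd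
  have h3A : 3 ≤ fA.natDegree := hdeg ▸ h3
  have hbD : (D : K) = algebraMap A K t * algebraMap A K ϖ ^ (n : ℤ) := by
    rw [← hb, map_intCast]
  have hDn : (l : ℤ) ∣ D → n ≠ 0 := by
    rintro ⟨c, hc⟩ hn0
    apply hn2
    rw [hn0, zero_add, pow_one, hvm, map_intCast, map_intCast, hc]
    push_cast
    rw [mul_comm]
    exact non_mul (intCast_mem V c) hlV
  have haev : ∀ (L : Type) [Field L] [Algebra K L] (z : L),
      aeval z (fA.map (algebraMap A K)) = aeval z f := by
    intro L _ _ z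
    rw [hfA, aeval_def, eval₂_map, aeval_def]
    congr 1
    exact RingHom.ext_int _ _
  have hxy' : algebraMap K F (D : K) * y ^ q = aeval x (fA.map (algebraMap A K)) := by
    rw [haev, map_intCast]
    exact hxy
  have hUNG : (q : ℤ) ∣ (n : ℤ) → ∀ i ∈ rts f (algebraicClosure K Ω),
      ∀ j ∈ rts f (algebraicClosure K Ω), ∀ h : geomPro q K F Ω,
      (h : Ω) ^ q = (algebraMap F Ω x - (i : Ω)) / (algebraMap F Ω x - (j : Ω)) →
      ∀ σ : algebraicClosure K Ω ≃ₐ[K] algebraicClosure K Ω, Ine V σ → S σ h = h := by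
    intro hqn i hi j hj h hh σ hσ
    have hroot : ∀ e ∈ rts f (algebraicClosure K Ω), aeval e (fA.map (algebraMap A K)) = 0 := by
      intro e he
      rw [haev, aeval_def]
      have h5 := (mem_rts.1 he).2
      rw [IsRoot.def, eval_map] at h5
      have h6 : Int.castRingHom (algebraicClosure K Ω) = algebraMap ℤ (algebraicClosure K Ω) :=
        RingHom.ext_int _ _
      rw [← h6]
      exact h5
    exact h1 A K F Ω q V hVA hVm hqA fA hfA3 hfA4 hdvdA h3A ϖ hϖ (D : K) n hqn t ht hbD x y hx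
      hxy' hF S hcont hcompat i j (hroot i hi) (hroot j hj) h hh σ hσ
  by_cases hlD : (l : ℤ) ∣ D
  · by_cases hqn : (q : ℤ) ∣ (n : ℤ)
    · left
      refine ⟨hUNG hqn, fun _ => ⟨algebraMap A K ϖ, n, hDn hlD, by exact_mod_cast hqn, ?_⟩⟩
      obtain ⟨c, hc⟩ := hlD
      have hcl : ¬ (l : ℤ) ∣ c := by
        rintro ⟨c', hc'⟩
        have h5 : (l : ℤ) * l ∣ D := ⟨c', by rw [hc, hc']; ring⟩
        have h6 := hD _ h5
        exact (Nat.prime_iff_prime_int.1 hl).not_isUnit h6
      have hcU := int_isU V hl hlV hcl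
      have htU : IsU V (algebraMap K (algebraicClosure K Ω) (algebraMap A K t)) := by
        obtain ⟨u, hu⟩ := ht
        have h5 : algebraMap K (algebraicClosure K Ω) (algebraMap A K t) *
            algebraMap K (algebraicClosure K Ω) (algebraMap A K ((u⁻¹ : Aˣ) : A)) = 1 := by
          rw [← map_mul, ← map_mul, ← hu, Units.mul_inv, map_one, map_one]
        refine ⟨left_ne_zero_of_mul_eq_one h5, hVA t, ?_⟩
        rw [inv_eq_of_mul_eq_one_right h5]
        exact hVA _
      have hl0 : (l : algebraicClosure K Ω) ≠ 0 := Nat.cast_ne_zero.2 hl.ne_zero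
      have h5 : algebraMap K (algebraicClosure K Ω) (algebraMap A K ϖ) ^ n /
          (l : algebraicClosure K Ω) = (c : algebraicClosure K Ω) /
            algebraMap K (algebraicClosure K Ω) (algebraMap A K t) := by
        have h6 := congrArg (algebraMap K (algebraicClosure K Ω)) hbD
        rw [map_intCast, map_mul, map_zpow₀, zpow_natCast, hc] at h6
        push_cast at h6
        have h7 := htU.1
        field_simp
        rw [mul_comm] at h6
        linear_combination -h6
      rw [h5]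
      exact hcU.div htU
    · right
      exact ⟨hlD, h2 A K F Ω q V hVA hVm hqA fA hfA3 hfA4 hdvdA h3A f hfA hdeg ϖ hϖ D n hqn t ht
        hbD x y hx hxy hF S hcont hcompat⟩
  · left
    have hn0 : n = 0 := by
      by_contra h
      obtain ⟨m, rfl⟩ : ∃ m, n = m + 1 := ⟨n - 1, by omega⟩
      have h5 : (D : 𝓞 K) ∈ v.asIdeal := Ideal.pow_le_self (Nat.succ_ne_zero m) hn1
      rw [hvm, map_intCast, map_intCast] at h5
      exact (int_isU V hl hlV hlD).not_nonunit h5
    exact ⟨hUNG (by rw [hn0]; simp), fun h => absurd h hlD⟩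

end Pool.Agent.Q166.SZ
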